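import Pool.Agent.W601.RP.Stm2

/-!
# Part BA of project RP: the values of a continuous character of `H` on unit vectors
-/

set_option autoImplicit false
open scoped Classical

namespace Pool.Agent.W935.RP.BA

open Pool.Agent.W601.RP

lemma N_pos (t : ℕ) : 0 < N t := by
  unfold N
  positivity

lemma N_ge (t : ℕ) : t ≤ N t := by
  unfold N
  have := Nat.self_le_factorial (t + 1)
  omega

lemma smul_frac (a : ℕ) (t : ℕ) :
    a • (((1 / (N t : ℝ) : ℝ)) : TT) = ((((a : ℝ) / (N t : ℝ)) : ℝ) : TT) := by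
  rw [← AddCircle.coe_nsmul, nsmul_eq_mul, mul_one_div]

lemma ex_m (hC : S_CIR) (t : ℕ) (y : TT) (hy : N t • y = 0) :
    ∃ m : ℤ, y = m • (((1 / (N t : ℝ) : ℝ)) : TT) ∧ -(N t : ℤ) < 2 * m ∧ 2 * m ≤ N t := by
  obtain ⟨a, ha, rfl⟩ := hC.2.2.2.2 (N t) y (N_pos t) hy
  by_cases h : 2 * a ≤ N t
  · refine ⟨a, ?_, ?_, ?_⟩
    · rw [natCast_zsmul, smul_frac]
    · have := N_pos t
      omega
    · omega
  · refine ⟨(a : ℤ) - N t, ?_, by omega, by omega⟩
    rw [sub_smul, natCast_zsmul, natCast_zsmul, smul_frac, smul_frac, div_self]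
    · have h1 : ((1 : ℝ) : TT) = 0 := AddCircle.coe_period 1
      rw [h1, sub_zero]
    · exact_mod_cast (N_pos t).ne'

theorem ba : S_UNIT → S_NULL → S_CIR → S_SGN → S_BA := by
  intro hU hNull hC hS A hA χ ε hε hχ
  obtain ⟨t0, hunit⟩ := hU A hA
  have hzero : ∀ h : ↥H, (∀ t ∈ A, (h : ℕ → TT) t = 0) → χ h = 0 := by
    intro h hh
    apply hC.1
    intro m
    rw [← map_nsmul]
    apply hχ
    intro t ht
    have h1 : ((m • h : ↥H) : ℕ → TT) t = 0 := by
      rw [AddSubgroup.coe_nsmul, Pi.smul_apply, hh t ht, smul_zero]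
    rw [h1, norm_zero]
    exact hε
  have he : ∀ t, ∃ e : ↥H, t ∈ A → t0 ≤ t →
      (e : ℕ → TT) t = ((1 / (N t : ℝ) : ℝ) : TT) ∧ ∀ u ∈ A, u ≠ t → (e : ℕ → TT) u = 0 := by
    intro t
    by_cases h : t ∈ A ∧ t0 ≤ t
    · obtain ⟨h1, h2, h3, h4⟩ := hunit t h.1 h.2 1
      rw [Nat.cast_one] at h3
      exact ⟨⟨h1, h2⟩, fun _ _ => ⟨h3, h4⟩⟩
    · exact ⟨0, fun h1 h2 => absurd ⟨h1, h2⟩ h⟩
  choose e he using he
  have hm : ∀ t, ∃ m : ℤ, t ∈ A → t0 ≤ t → χ (e t) = m • (((1 / (N t : ℝ) : ℝ)) : TT) ∧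
      -(N t : ℤ) < 2 * m ∧ 2 * m ≤ N t := by
    intro t
    by_cases h : t ∈ A ∧ t0 ≤ t
    · have h1 : N t • χ (e t) = 0 := by
        rw [← map_nsmul]
        apply hzero
        intro u hu
        rw [AddSubgroup.coe_nsmul, Pi.smul_apply]
        by_cases hut : u = t
        · subst hut
          exact hNull.2 _ (e u).2 u
        · rw [(he t h.1 h.2).2 u hu hut, smul_zero]
      obtain ⟨m, hm⟩ := ex_m hC t _ h1
      exact ⟨m, fun _ _ => hm⟩
    · exact ⟨0, fun h1 h2 => absurd ⟨h1, h2⟩ h⟩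
  choose m hm using hm
  -- values of the character on vectors supported at one point
  have key : ∀ t ∈ A, t0 ≤ t → ∀ h : ↥H, (∀ u ∈ A, u ≠ t → (h : ℕ → TT) u = 0) →
      χ h = m t • (h : ℕ → TT) t := by
    intro t ht ht0 h hh
    obtain ⟨a, -, hat⟩ := hC.2.2.2.2 (N t) ((h : ℕ → TT) t) (N_pos t) (hNull.2 h h.2 t)
    have h1 : χ (h - a • e t) = 0 := by
      apply hzero
      intro u hu
      rw [AddSubgroup.coe_sub, AddSubgroup.coe_nsmul, Pi.sub_apply, Pi.smul_apply]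
      by_cases hut : u = t
      · subst hut
        rw [(he u ht ht0).1, smul_frac, hat, sub_self]
      · rw [hh u hu hut, (he t ht ht0).2 u hu hut, smul_zero, sub_zero]
    rw [map_sub, map_nsmul, sub_eq_zero] at h1
    rw [h1, (hm t ht ht0).1, hat, ← smul_frac, ← natCast_zsmul, ← natCast_zsmul, smul_smul,
      smul_smul, mul_comm]
  -- finiteness
  have hfin : {t | t ∈ A ∧ t0 ≤ t ∧ m t ≠ 0}.Finite := by
    by_contra hinf
    set δ : ℝ := min (ε / 2) (1 / 2) with hδ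
    have hδ0 : 0 < δ := lt_min (by linarith) (by norm_num)
    have hδε : δ < ε := lt_of_le_of_lt (min_le_left _ _) (by linarith)
    have hδ2 : δ ≤ 1 / 2 := min_le_right _ _
    have hsmall : {t : ℕ | δ * (N t : ℝ) < 8}.Finite := by
      refine (Set.finite_lt_nat (⌈8 / δ⌉₊ + 1)).subset ?_
      intro t ht
      have ht' : δ * (N t : ℝ) < 8 := ht
      have h1 : (t : ℝ) ≤ N t := by exact_mod_cast N_ge t
      have h2 : (t : ℝ) < 8 / δ := by
        rw [lt_div_iff₀ hδ0]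
        nlinarith
      have h3 : (t : ℝ) < (⌈8 / δ⌉₊ : ℕ) := lt_of_lt_of_le h2 (Nat.le_ceil _)
      have h4 : t < ⌈8 / δ⌉₊ := by exact_mod_cast h3
      show t < ⌈8 / δ⌉₊ + 1
      omega
    have hinf2 : ({t | t ∈ A ∧ t0 ≤ t ∧ m t ≠ 0} \ {t : ℕ | δ * (N t : ℝ) < 8}).Infinite :=
      Set.Infinite.sdiff hinf hsmall
    obtain ⟨s, hs, hcard⟩ := hinf2.exists_subset_card_eq ⌈2 / δ⌉₊
    have hsc : 2 ≤ δ * s.card := by
      rw [hcard]
      have h1 : 2 / δ ≤ (⌈2 / δ⌉₊ : ℕ) := Nat.le_ceil _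
      rw [div_le_iff₀ hδ0] at h1
      linarith
    have ha : ∀ t, ∃ a : ℕ, t ∈ s → ‖((((a : ℝ) / (N t : ℝ)) : ℝ) : TT)‖ ≤ δ ∧
        δ / 2 ≤ ‖m t • ((((a : ℝ) / (N t : ℝ)) : ℝ) : TT)‖ := by
      intro t
      by_cases h : t ∈ s
      · have h1 := hs h
        obtain ⟨⟨h2, h3, h4⟩, h5⟩ := h1
        have h5' : 8 ≤ δ * (N t : ℝ) := not_lt.1 h5
        obtain ⟨-, h6, h7⟩ := hm t h2 h3
        obtain ⟨a, -, ha1, ha2⟩ := hC.2.2.1 (N t) (m t) δ hδ0 hδ2 h5' h4 h6 h7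
        exact ⟨a, fun _ => ⟨ha1, ha2⟩⟩
      · exact ⟨0, fun h1 => absurd h1 h⟩
    choose a ha using ha
    obtain ⟨σ, hσ, hσ2⟩ := (hS s (fun t => m t • ((((a t : ℝ) / (N t : ℝ)) : ℝ) : TT)) δ hδ0
      (fun t ht => (ha t ht).2) hsc).2
    let h : ↥H := ∑ t ∈ s, σ t • (a t • e t)
    have hcoe : ∀ u, (h : ℕ → TT) u = ∑ t ∈ s, σ t • (a t • (e t : ℕ → TT) u) := by
      intro u
      have h1 : (h : ℕ → TT) = ∑ t ∈ s, ((σ t • (a t • e t) : ↥H) : ℕ → TT) :=
        AddSubgroup.val_finsetSum _ _ _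
      rw [h1, Finset.sum_apply]
      rfl
    have hval : ∀ t ∈ s, χ (a t • e t) = m t • ((((a t : ℝ) / (N t : ℝ)) : ℝ) : TT) := by
      intro t ht
      obtain ⟨⟨h2, h3, h4⟩, h5⟩ := hs ht
      rw [key t h2 h3 (a t • e t)]
      · rw [AddSubgroup.coe_nsmul, Pi.smul_apply, (he t h2 h3).1, smul_frac]
      · intro u hu hut
        rw [AddSubgroup.coe_nsmul, Pi.smul_apply, (he t h2 h3).2 u hu hut, smul_zero]
    have h1 : χ h = ∑ t ∈ s, σ t • (m t • ((((a t : ℝ) / (N t : ℝ)) : ℝ) : TT)) := by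
      show χ (∑ t ∈ s, σ t • (a t • e t)) = _
      rw [map_sum]
      refine Finset.sum_congr rfl fun t ht => ?_
      rw [map_zsmul, hval t ht]
    have h2 : ‖χ h‖ < 1 / 4 := by
      apply hχ
      intro u hu
      rw [hcoe u]
      by_cases hus : u ∈ s
      · rw [Finset.sum_eq_single_of_mem u hus]
        · obtain ⟨⟨h2, h3, h4⟩, h5⟩ := hs hus
          rw [(he u h2 h3).1, smul_frac]
          have h6 := (ha u hus).1
          rcases hσ u with h | h | h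
          · rw [h, zero_smul, norm_zero]
            exact hε
          · rw [h, one_smul]
            exact lt_of_le_of_lt h6 hδε
          · rw [h, neg_smul, one_smul, norm_neg]
            exact lt_of_le_of_lt h6 hδε
        · intro t ht htu
          obtain ⟨⟨h2, h3, h4⟩, h5⟩ := hs ht
          rw [(he t h2 h3).2 u hu (Ne.symm htu), smul_zero, smul_zero]
      · rw [Finset.sum_eq_zero, norm_zero]
        · exact hε
        · intro t ht
          obtain ⟨⟨h2, h3, h4⟩, h5⟩ := hs ht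
          have htu : u ≠ t := fun h => hus (h ▸ ht)
          rw [(he t h2 h3).2 u hu htu, smul_zero, smul_zero]
    rw [h1] at h2
    exact absurd hσ2 (not_le.2 h2)
  -- the finitely supported function
  let k0 : ℕ →₀ ℤ := Finsupp.onFinset hfin.toFinset
    (fun t => if t ∈ A ∧ t0 ≤ t ∧ m t ≠ 0 then m t else 0) (by
      intro t ht
      rw [Set.Finite.mem_toFinset]
      by_contra h
      exact ht (if_neg h))
  have hk0 : ∀ t, k0 t = if t ∈ A ∧ t0 ≤ t ∧ m t ≠ 0 then m t else 0 := fun t => rfl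
  have hsupp : ∀ t ∈ k0.support, t ∈ A ∧ t0 ≤ t := by
    intro t ht
    rw [Finsupp.mem_support_iff, hk0] at ht
    by_contra h
    apply ht
    rw [if_neg]
    rintro ⟨h1, h2, -⟩
    exact h ⟨h1, h2⟩
  refine ⟨t0, k0, hsupp, hunit, ?_⟩
  intro t ht ht0 h hh
  rw [key t ht ht0 h hh]
  have hkt : k0 t = m t := by
    rw [hk0]
    by_cases hmt : m t = 0
    · rw [if_neg (fun h => h.2.2 hmt), hmt]
    · rw [if_pos ⟨ht, ht0, hmt⟩]
  unfold pr
  rw [Finsupp.sum, Finset.sum_eq_single t]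
  · rw [hkt]
  · intro u hu hut
    rw [hh u (hsupp u hu).1 hut, smul_zero]
  · intro h1
    rw [Finsupp.notMem_support_iff.1 h1, zero_smul]

end Pool.Agent.W935.RP.BA
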